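import Pool.Agent.D0H69.BS.Stm

/-!
# Project BS, module RK: the rank of the group of the `N`-units of a number field of class number one
-/

set_option autoImplicit false

open NumberField IsDedekindDomain

namespace Pool.Agent.D0H17.BS

variable {K : Type} [Field K] [NumberField K]

/-- the embedding of `𝓞 K [1 / N]` into `K` -/
noncomputable def emb (N : 𝓞 K) (hN : N ≠ 0) : Localization.Away N →+* K :=
  IsLocalization.Away.lift (g := algebraMap (𝓞 K) K) N
    (by
      rw [isUnit_iff_ne_zero]
      exact fun h => hN (FaithfulSMul.algebraMap_injective (𝓞 K) K (by rw [h, map_zero])))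

omit [NumberField K] in
theorem emb_alg (N : 𝓞 K) (hN : N ≠ 0) (a : 𝓞 K) :
    emb N hN (algebraMap (𝓞 K) (Localization.Away N) a) = algebraMap (𝓞 K) K a :=
  IsLocalization.Away.lift_eq _ _ _

theorem emb_inj (N : 𝓞 K) (hN : N ≠ 0) : Function.Injective (emb N hN) := by
  rw [injective_iff_map_eq_zero]
  intro x hx
  obtain ⟨n, a, h⟩ := IsLocalization.Away.surj N x
  have h1 := congrArg (emb N hN) h
  rw [map_mul, hx, zero_mul, emb_alg] at h1
  have h2 : a = 0 := FaithfulSMul.algebraMap_injective (𝓞 K) K (by rw [← h1, map_zero])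
  rw [h2, map_zero] at h
  have h3 : IsUnit (algebraMap (𝓞 K) (Localization.Away N) N ^ n) :=
    (IsLocalization.Away.algebraMap_isUnit N).pow n
  exact (h3.mul_left_eq_zero).1 h

/-- valuations of the elements of the localization at primes not dividing `N` -/
theorem val_le (N : 𝓞 K) (hN : N ≠ 0) (v : HeightOneSpectrum (𝓞 K)) (hv : N ∉ v.asIdeal)
    (x : Localization.Away N) : v.valuation K (emb N hN x) ≤ 1 := by
  obtain ⟨n, a, h⟩ := IsLocalization.Away.surj N x
  have h1 := congrArg (emb N hN) h
  rw [map_mul, map_pow, emb_alg, emb_alg] at h1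
  have h2 := congrArg (v.valuation K) h1
  rw [map_mul, map_pow, (HeightOneSpectrum.valuation_eq_one_iff_notMem v).2 hv, one_pow,
    mul_one] at h2
  rw [h2]
  exact v.valuation_le_one a

/-- the set of primes that divide `N` -/
abbrev Sp (N : 𝓞 K) : Set (HeightOneSpectrum (𝓞 K)) := {v | N ∈ v.asIdeal}

theorem Sp_finite (N : 𝓞 K) (hN : N ≠ 0) : (Sp N).Finite := by
  have h := Ideal.finite_factors (R := 𝓞 K) (I := Ideal.span {N})
    (by simpa [Ideal.span_singleton_eq_bot] using hN)
  refine h.subset fun v hv => ?_
  exact Ideal.dvd_span_singleton.2 hv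

/-- the valuations of the units at the primes that divide `N` -/
noncomputable def vals (N : 𝓞 K) (hN : N ≠ 0) :
    Additive (Localization.Away N)ˣ →ₗ[ℤ] (Sp N → ℤ) :=
  AddMonoidHom.toIntLinearMap
    { toFun := fun u v => Multiplicative.toAdd
        (v.1.valuationOfNeZero (Units.map (emb N hN).toMonoidHom u.toMul))
      map_zero' := by
        funext v
        simp
      map_add' := by
        intro a b
        funext v
        simp }

theorem vals_eq_zero (N : 𝓞 K) (hN : N ≠ 0) (u : Additive (Localization.Away N)ˣ) (v : Sp N) :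
    vals N hN u v = 0 ↔ v.1.valuation K (emb N hN (u.toMul : Localization.Away N)) = 1 := by
  have e : vals N hN u v = Multiplicative.toAdd
      (v.1.valuationOfNeZero (Units.map (emb N hN).toMonoidHom u.toMul)) := rfl
  rw [e, toAdd_eq_zero, ← WithZero.coe_inj, HeightOneSpectrum.valuationOfNeZero_eq]
  rfl

/-- the units of `𝓞 K` in the group of the units of the localization -/
noncomputable def incl (N : 𝓞 K) : Additive (𝓞 K)ˣ →ₗ[ℤ] Additive (Localization.Away N)ˣ :=
  AddMonoidHom.toIntLinearMap
    (MonoidHom.toAdditive (Units.map (algebraMap (𝓞 K) (Localization.Away N)).toMonoidHom))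

omit [NumberField K] in
theorem incl_val (N : 𝓞 K) (u : Additive (𝓞 K)ˣ) :
    ((incl N u).toMul : Localization.Away N) =
      algebraMap (𝓞 K) (Localization.Away N) (u.toMul : 𝓞 K) := rfl

theorem incl_inj (N : 𝓞 K) (hN : N ≠ 0) : Function.Injective (incl N) := by
  intro a b h
  have h1 : ((incl N a).toMul : Localization.Away N) = ((incl N b).toMul : Localization.Away N) := by
    rw [h]
  rw [incl_val, incl_val] at h1
  have h2 := congrArg (emb N hN) h1
  rw [emb_alg, emb_alg] at h2
  have h3 := FaithfulSMul.algebraMap_injective (𝓞 K) K h2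
  exact Additive.toMul.injective (Units.ext h3)

theorem ker_eq (N : 𝓞 K) (hN : N ≠ 0) : LinearMap.ker (vals N hN) = LinearMap.range (incl N) := by
  ext u
  rw [LinearMap.mem_ker, LinearMap.mem_range]
  constructor
  · intro h
    have h1 : ∀ v : HeightOneSpectrum (𝓞 K),
        v.valuation K (emb N hN (u.toMul : Localization.Away N)) = 1 := by
      intro v
      by_cases hv : N ∈ v.asIdeal
      · exact (vals_eq_zero N hN u ⟨v, hv⟩).1 (by rw [h]; rfl)
      · have h2 := val_le N hN v hv (u.toMul : Localization.Away N)
        have h3 := val_le N hN v hv ((u.toMul⁻¹ : (Localization.Away N)ˣ) : Localization.Away N)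
        have h4 : v.valuation K (emb N hN (u.toMul : Localization.Away N)) *
            v.valuation K (emb N hN ((u.toMul⁻¹ : (Localization.Away N)ˣ) : Localization.Away N))
              = 1 := by
          rw [← map_mul, ← map_mul, Units.mul_inv, map_one, map_one]
        refine le_antisymm h2 ?_
        calc (1 : WithZero (Multiplicative ℤ)) = _ := h4.symm
          _ ≤ v.valuation K (emb N hN (u.toMul : Localization.Away N)) * 1 := by
              gcongr
          _ = _ := mul_one _
    obtain ⟨a, ha⟩ := HeightOneSpectrum.mem_integers_of_valuation_le_one (R := 𝓞 K) K _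
      (fun v => (h1 v).le)
    obtain ⟨b, hb⟩ := HeightOneSpectrum.mem_integers_of_valuation_le_one (R := 𝓞 K) K
      (emb N hN ((u.toMul⁻¹ : (Localization.Away N)ˣ) : Localization.Away N))
      (fun v => by
        have h4 : v.valuation K (emb N hN (u.toMul : Localization.Away N)) *
            v.valuation K (emb N hN ((u.toMul⁻¹ : (Localization.Away N)ˣ) : Localization.Away N))
              = 1 := by
          rw [← map_mul, ← map_mul, Units.mul_inv, map_one, map_one]
        rw [h1 v, one_mul] at h4
        exact h4.le)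
    have hab : a * b = 1 := by
      apply FaithfulSMul.algebraMap_injective (𝓞 K) K
      rw [map_mul, map_one, ha, hb, ← map_mul, Units.mul_inv, map_one]
    refine ⟨Additive.ofMul ⟨a, b, hab, by rw [mul_comm, hab]⟩, ?_⟩
    apply Additive.toMul.injective
    apply Units.ext
    rw [incl_val]
    apply emb_inj N hN
    rw [emb_alg]
    exact ha
  · rintro ⟨w, rfl⟩
    funext v
    rw [Pi.zero_apply, vals_eq_zero, incl_val, emb_alg, HeightOneSpectrum.valuation_eq_one_iff_notMem]
    intro h
    exact v.1.isPrime.ne_top (Ideal.eq_top_of_isUnit_mem _ h w.toMul.isUnit)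

theorem vals_surj [IsPrincipalIdealRing (𝓞 K)] (N : 𝓞 K) (hN : N ≠ 0) :
    Function.Surjective (vals N hN) := by
  classical
  have hfin : Finite (Sp N) := (Sp_finite N hN).to_subtype
  have := Fintype.ofFinite (Sp N)
  have key : ∀ v : Sp N, Pi.single v (1 : ℤ) ∈ LinearMap.range (vals N hN) := by
    intro v
    obtain ⟨p, hp⟩ := IsPrincipalIdealRing.principal v.1.asIdeal
    rw [Ideal.submodule_span_eq] at hp
    have hdvd : p ∣ N := by
      have : N ∈ v.1.asIdeal := v.2
      rwa [hp, Ideal.mem_span_singleton] at this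
    obtain ⟨q, hq⟩ := hdvd
    have hu : IsUnit (algebraMap (𝓞 K) (Localization.Away N) p) := by
      have h1 : IsUnit (algebraMap (𝓞 K) (Localization.Away N) N) :=
        IsLocalization.Away.algebraMap_isUnit N
      have h2 : algebraMap (𝓞 K) (Localization.Away N) N =
          algebraMap (𝓞 K) (Localization.Away N) p * algebraMap (𝓞 K) (Localization.Away N) q := by
        rw [← map_mul, ← hq]
      rw [h2] at h1
      exact isUnit_of_mul_isUnit_left h1
    obtain ⟨w, hw⟩ := hu
    have hp0 : p ≠ 0 := by
      rintro rfl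
      rw [zero_mul] at hq
      exact hN hq
    have hval : v.1.valuation K (algebraMap (𝓞 K) K p) = WithZero.exp (-1 : ℤ) := by
      rw [HeightOneSpectrum.valuation_of_algebraMap]
      exact HeightOneSpectrum.intValuation_singleton v.1 hp0 hp
    refine ⟨-Additive.ofMul w, ?_⟩
    rw [map_neg]
    funext v'
    rw [Pi.neg_apply]
    by_cases hv : v' = v
    · subst hv
      rw [Pi.single_eq_same]
      have e : vals N hN (Additive.ofMul w) v' = Multiplicative.toAdd
        (v'.1.valuationOfNeZero (Units.map (emb N hN).toMonoidHom w)) := rfl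
      have e2 : ((v'.1.valuationOfNeZero (Units.map (emb N hN).toMonoidHom w) :
          Multiplicative ℤ) : WithZero (Multiplicative ℤ)) = WithZero.exp (-1 : ℤ) := by
        rw [HeightOneSpectrum.valuationOfNeZero_eq, ← hval, ← emb_alg N hN p, ← hw]
        rfl
      have e3 : v'.1.valuationOfNeZero (Units.map (emb N hN).toMonoidHom w) =
          Multiplicative.ofAdd (-1 : ℤ) := WithZero.coe_inj.1 e2
      rw [e, e3, toAdd_ofAdd]
      norm_num
    · rw [Pi.single_eq_of_ne hv, neg_eq_zero, vals_eq_zero]
      have e : ((Additive.ofMul w).toMul : Localization.Away N) =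
        algebraMap (𝓞 K) (Localization.Away N) p := hw
      rw [e, emb_alg, HeightOneSpectrum.valuation_eq_one_iff_notMem]
      intro h
      apply hv
      have hle : v.1.asIdeal ≤ v'.1.asIdeal := by
        rw [hp, Ideal.span_singleton_le_iff_mem]
        exact h
      have hmax := v.1.isMaximal.eq_of_le v'.1.isPrime.ne_top hle
      exact (Subtype.ext (HeightOneSpectrum.ext hmax)).symm
  rw [← LinearMap.range_eq_top, eq_top_iff]
  intro f _
  have : f = ∑ v, f v • (Pi.single v (1 : ℤ) : Sp N → ℤ) := by
    funext v'
    rw [Finset.sum_apply, Finset.sum_eq_single v']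
    · simp
    · intro b _ hb
      simp [hb.symm]
    · intro h
      exact absurd (Finset.mem_univ _) h
  rw [this]
  exact Submodule.sum_mem _ fun v _ => Submodule.smul_mem _ _ (key v)

theorem rk : Pool.Agent.D0H69.BS.S_RK := by
  intro K _ _ _ N hN
  have hfin : Finite (Sp N) := (Sp_finite N hN).to_subtype
  have := Fintype.ofFinite (Sp N)
  have h1 := LinearMap.rank_eq_of_surjective (vals_surj N hN)
  have h2 : Module.rank ℤ (LinearMap.ker (vals N hN)) = (Units.rank K : Cardinal) := by
    rw [ker_eq, ← (LinearEquiv.ofInjective (incl N) (incl_inj N hN)).rank_eq,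
      ← Module.finrank_eq_rank, NumberField.Units.finrank_eq]
  have h3 : Module.rank ℤ (Sp N → ℤ) = ((Sp N).ncard : Cardinal) := by
    rw [rank_fun', ← Nat.card_coe_set_eq, Nat.card_eq_fintype_card]
  rw [h2, h3, ← Nat.cast_add] at h1
  rw [Module.finrank, h1, Cardinal.toNat_natCast, add_comm]

end Pool.Agent.D0H17.BS
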