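import Pool.Agent.D0H69.BS.Stm

/-!
# Project BS, module UN: the units of the coordinate ring of a Weierstrass curve over a domain
-/

set_option autoImplicit false

open Polynomial WeierstrassCurve.Affine WeierstrassCurve.Affine.CoordinateRing
open scoped Polynomial.Bivariate

namespace Pool.Agent.D0H17.BS

variable {R : Type} [CommRing R] [IsDomain R] {W : WeierstrassCurve.Affine R}

theorem unit_const (u : W.CoordinateRingˣ) :
    ∃ c : Rˣ, (u : W.CoordinateRing) = algebraMap R W.CoordinateRing c := by
  obtain ⟨p, q, h⟩ := exists_smul_basis_eq (u : W.CoordinateRing)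
  have h1 : IsUnit (Algebra.norm R[X] (u : W.CoordinateRing)) := u.isUnit.map _
  have h2 : (Algebra.norm R[X] (u : W.CoordinateRing)).degree = 0 := degree_eq_zero_of_isUnit h1
  rw [← h, degree_norm_smul_basis] at h2
  have hq : q = 0 := by
    by_contra hq
    have h3 : 2 • q.degree + 3 ≤ 0 := by
      rw [← h2]
      exact le_max_right _ _
    rw [degree_eq_natDegree hq] at h3
    have h4 : ((2 * q.natDegree + 3 : ℕ) : WithBot ℕ) ≤ ((0 : ℕ) : WithBot ℕ) := by
      push_cast
      rw [two_nsmul] at h3
      rw [two_mul]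
      exact h3
    have : 2 * q.natDegree + 3 ≤ 0 := Nat.cast_le.1 h4
    omega
  subst hq
  have hp : p.degree ≤ 0 := by
    by_cases hp0 : p = 0
    · rw [hp0, degree_zero]
      exact bot_le
    · have h3 : 2 • p.degree ≤ 0 := by
        rw [← h2]
        exact le_max_left _ _
      rw [degree_eq_natDegree hp0] at h3 ⊢
      have h4 : ((2 * p.natDegree : ℕ) : WithBot ℕ) ≤ ((0 : ℕ) : WithBot ℕ) := by
        push_cast
        rw [two_nsmul] at h3
        rw [two_mul]
        exact h3
      have h5 : 2 * p.natDegree ≤ 0 := Nat.cast_le.1 h4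
      exact_mod_cast (by omega : p.natDegree ≤ 0)
  have hc : IsUnit (p.coeff 0) := by
    rw [← h, norm_smul_basis, eq_C_of_degree_le_zero hp] at h1
    have h3 : IsUnit (C (p.coeff 0) ^ 2 : R[X]) := by
      refine (congrArg IsUnit ?_).mp h1
      ring
    exact isUnit_C.1 ((isUnit_pow_iff two_ne_zero).1 h3)
  obtain ⟨c, hc⟩ := hc
  refine ⟨c, ?_⟩
  rw [hc, ← h, zero_smul, add_zero, eq_C_of_degree_le_zero hp, coeff_C_zero,
    IsScalarTower.algebraMap_apply R R[X] W.CoordinateRing, Algebra.algebraMap_eq_smul_one]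
  rfl

omit [IsDomain R] in
theorem alg_inj : Function.Injective (algebraMap R W.CoordinateRing) := by
  rw [injective_iff_map_eq_zero]
  intro c hc
  have h : (C c : R[X]) • (1 : W.CoordinateRing) + (0 : R[X]) • mk W Y = 0 := by
    rw [zero_smul, add_zero, ← hc, IsScalarTower.algebraMap_apply R R[X] W.CoordinateRing,
      Algebra.algebraMap_eq_smul_one]
    rfl
  exact C_eq_zero.1 (smul_basis_eq_zero h).1

theorem un : Pool.Agent.D0H69.BS.S_UN := by
  intro R _ _ W
  refine ⟨Units.map_injective alg_inj, fun u => ?_⟩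
  obtain ⟨c, hc⟩ := unit_const u
  exact ⟨c, Units.ext hc.symm⟩

end Pool.Agent.D0H17.BS
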